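import Mathlib
import Pool.Agent.V11215.Corr

/-!
MP_c3dba2_gt, Q1: (C) is false, hence (C) implies (H).
-/

set_option autoImplicit false

namespace Pool.Agent.Results.MP_c3dba2_gt.CImpliesH

open Set Metric
open Pool.Agent.V11215.Corr

/-- The statement (H). -/
def H : Prop :=
  ∀ (X : Fin 3 → Type) [∀ i, MetricSpace (X i)] [∀ i, CompactSpace (X i)] [∀ i, Nonempty (X i)],
    ∃ (Z : Type) (_ : MetricSpace Z) (_ : CompactSpace Z) (φ : ∀ i, X i → Z),
      (∀ i, Isometry (φ i)) ∧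
        ∀ i j, hausdorffDist (range (φ i)) (range (φ j)) = ghDist (X i) (X j)

/-- The statement (C). -/
def C : Prop :=
  ∀ (X : Fin 3 → Type) [∀ i, MetricSpace (X i)] [∀ i, CompactSpace (X i)] [∀ i, Nonempty (X i)],
    ∃ R : Set (∀ k, X k), ∀ i j, IsOptimal (proj i j R)

theorem not_C : ¬ C := by
  intro h
  obtain ⟨R, hR⟩ := h Q
  obtain ⟨i, j, _, hij⟩ := no_optimal R
  exact hij (hR i j)

/-- (C) is false; consequently (C) implies (H). -/
theorem result : ¬ C ∧ (C → H) :=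
  ⟨not_C, fun h => absurd h not_C⟩

end Pool.Agent.Results.MP_c3dba2_gt.CImpliesH
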