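import Mathlib
import Pool.Agent.V11215.CorrLine

/-!
MP_c3dba2_gt: for a fixed triple of spaces, the existence of a triple correspondence as in (C) does
not imply the existence of a common ambient space as in (H).
-/

set_option autoImplicit false

universe u

namespace Pool.Agent.Results.MP_c3dba2_gt.NotForEachTriple

open Set Metric
open Pool.Agent.V11215.Corr Pool.Agent.V11215.LineTriple

/-- There are three nonempty compact metric spaces with a set `R ⊆ X 0 × X 1 × X 2` all of whose
projections `e_ij(R)` are optimal correspondences, but without isometric embeddings into one metric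
space that realise all Gromov–Hausdorff distances as Hausdorff distances. -/
theorem result : ∃ (X : Fin 3 → Type) (_ : ∀ i, MetricSpace (X i)) (_ : ∀ i, CompactSpace (X i))
    (_ : ∀ i, Nonempty (X i)),
    (∃ R : Set (∀ k, X k), ∀ i j, IsOptimal (proj i j R)) ∧
    ¬ ∃ (Z : Type u) (_ : MetricSpace Z) (φ : ∀ i, X i → Z), (∀ i, Isometry (φ i)) ∧
        ∀ i j, hausdorffDist (range (φ i)) (range (φ j)) = ghDist (X i) (X j) := by
  refine ⟨Sp, fun _ => inferInstance, fun _ => inferInstance, fun _ => inferInstance,
    ⟨Pool.Agent.V11215.CorrLine.diag, Pool.Agent.V11215.CorrLine.optimal⟩, ?_⟩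
  rintro ⟨Z, _, φ, hφ, h⟩
  obtain ⟨i, j, hij, hlt⟩ := not_realised φ hφ
  rw [h i j] at hlt
  have := Pool.Agent.V11215.CorrLine.two_ghDist hij
  linarith

end Pool.Agent.Results.MP_c3dba2_gt.NotForEachTriple
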